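import Mathlib

namespace Pool.Agent.Results.MP_b8ee47_co.RationalFactorization

open Finset

/-- An exponent vector as a point of `ℝ^n`. -/
def toR {n : ℕ} (a : Fin n → ℕ) : Fin n → ℝ := fun i => (a i : ℝ)

/-- The tropical polynomial function `x ↦ max_{a ∈ A} (c_a + a · x)`. -/
noncomputable def trop {n : ℕ} (A : Finset (Fin n → ℕ)) (hA : A.Nonempty)
    (c : (Fin n → ℕ) → ℝ) (x : Fin n → ℝ) : ℝ :=
  A.sup' hA (fun a => c a + ∑ i, (a i : ℝ) * x i)

/-- `f` is a tropical polynomial in `n` variables. -/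
def IsTropicalPolynomial {n : ℕ} (f : (Fin n → ℝ) → ℝ) : Prop :=
  ∃ (A : Finset (Fin n → ℕ)) (hA : A.Nonempty) (c : (Fin n → ℕ) → ℝ), f = trop A hA c

/-- The Newton polytope `conv A`. -/
def newton {n : ℕ} (A : Finset (Fin n → ℕ)) : Set (Fin n → ℝ) :=
  convexHull ℝ (toR '' (A : Set (Fin n → ℕ)))

/-- The lifted polytope `conv {(a, -c_a) : a ∈ A}`. -/
def lifted {n : ℕ} (A : Finset (Fin n → ℕ)) (c : (Fin n → ℕ) → ℝ) : Set ((Fin n → ℝ) × ℝ) :=
  convexHull ℝ ((fun a => (toR a, -c a)) '' (A : Set (Fin n → ℕ)))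

/-- The lower face of the lifted polytope on which the functional `(u, t) ↦ t - x · u` is
minimal. -/
def lowerFace {n : ℕ} (A : Finset (Fin n → ℕ)) (c : (Fin n → ℕ) → ℝ) (x : Fin n → ℝ) :
    Set ((Fin n → ℝ) × ℝ) :=
  {p | p ∈ lifted A c ∧ ∀ q ∈ lifted A c, p.2 - ∑ i, x i * p.1 i ≤ q.2 - ∑ i, x i * q.1 i}

/-- The regular subdivision: the projections of the lower faces of the lifted polytope. -/
def subdivision {n : ℕ} (A : Finset (Fin n → ℕ)) (c : (Fin n → ℕ) → ℝ) : Set (Set (Fin n → ℝ)) :=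
  {C | ∃ x, C = Prod.fst '' lowerFace A c x}

/-- `f` is a unit: its regular subdivision is trivial, i.e. the Newton polytope itself is a cell. -/
def IsTropicalUnit {n : ℕ} (f : (Fin n → ℝ) → ℝ) : Prop :=
  ∃ (A : Finset (Fin n → ℕ)) (hA : A.Nonempty) (c : (Fin n → ℕ) → ℝ), f = trop A hA c ∧
    newton A ∈ subdivision A c

/-- `g` is a finite (nonempty) tropical product of units; the tropical product is the pointwise
sum. -/
def IsProductOfUnits {n : ℕ} (g : (Fin n → ℝ) → ℝ) : Prop :=
  ∃ (m : ℕ) (u : Fin (m + 1) → (Fin n → ℝ) → ℝ), (∀ j, IsTropicalUnit (u j)) ∧ ∀ x, g x = ∑ j, u j x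

variable {n : ℕ}

theorem IsProductOfUnits.add {g h : (Fin n → ℝ) → ℝ} (hg : IsProductOfUnits g)
    (hh : IsProductOfUnits h) : IsProductOfUnits (g + h) := by
  obtain ⟨m, u, hu, hg⟩ := hg
  obtain ⟨k, v, hv, hh⟩ := hh
  refine ⟨m + 1 + k, fun j => Fin.append u v (Fin.cast (by omega) j), ?_, ?_⟩
  · intro j
    refine Fin.addCases (m := m + 1) (n := k + 1)
      (motive := fun j => IsTropicalUnit (Fin.append u v j)) ?_ ?_ (Fin.cast (by omega) j)
    · intro i
      rw [Fin.append_left]
      exact hu i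
    · intro i
      rw [Fin.append_right]
      exact hv i
  · intro x
    rw [Pi.add_apply, hg, hh]
    have h1 : ∑ j : Fin (m + 1 + k + 1), Fin.append u v (Fin.cast (by omega) j) x =
        ∑ j : Fin (m + 1 + (k + 1)), Fin.append u v j x :=
      Fintype.sum_equiv (finCongr (by omega)) _ _ (fun j => rfl)
    rw [h1, Fin.sum_univ_add (a := m + 1) (b := k + 1)]
    congr 1
    · exact Finset.sum_congr rfl fun i _ => by rw [Fin.append_left]
    · exact Finset.sum_congr rfl fun i _ => by rw [Fin.append_right]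

theorem trop_singleton (a : Fin n → ℕ) (c : (Fin n → ℕ) → ℝ) (x : Fin n → ℝ) :
    trop {a} (Finset.singleton_nonempty a) c x = c a + ∑ i, (a i : ℝ) * x i := by
  simp [trop]

/-- If all the lifted points lie on a common non-vertical hyperplane then the function is a
unit. -/
theorem isUnit_of_flat (A : Finset (Fin n → ℕ)) (hA : A.Nonempty) (c : (Fin n → ℕ) → ℝ)
    (x : Fin n → ℝ) (β : ℝ) (h : ∀ a ∈ A, c a + ∑ i, (a i : ℝ) * x i = β) :
    IsTropicalUnit (trop A hA c) := by
  refine ⟨A, hA, c, rfl, x, ?_⟩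
  have key : ∀ p ∈ lifted A c, p.2 - ∑ i, x i * p.1 i = -β := by
    intro p hp
    have hconv : Convex ℝ {p : (Fin n → ℝ) × ℝ | p.2 - ∑ i, x i * p.1 i = -β} := by
      intro p hp q hq s t hs ht hst
      simp only [Set.mem_ofPred_eq] at hp hq ⊢
      have e1 : (s • p + t • q).2 - ∑ i, x i * (s • p + t • q).1 i =
          s * (p.2 - ∑ i, x i * p.1 i) + t * (q.2 - ∑ i, x i * q.1 i) := by
        simp only [Prod.snd_add, Prod.smul_snd, smul_eq_mul, Prod.fst_add, Prod.smul_fst,
          Pi.add_apply, Pi.smul_apply, mul_sub, Finset.mul_sum]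
        have : ∑ i, x i * (s * p.1 i + t * q.1 i) =
            ∑ i, s * (x i * p.1 i) + ∑ i, t * (x i * q.1 i) := by
          rw [← Finset.sum_add_distrib]
          exact Finset.sum_congr rfl fun i _ => by ring
        rw [this]
        ring
      rw [e1, hp, hq, ← add_mul, hst, one_mul]
    refine convexHull_min ?_ hconv hp
    rintro _ ⟨a, ha, rfl⟩
    have := h a (by simpa using ha)
    simp only [Set.mem_ofPred_eq, toR]
    have e : ∑ i, x i * (a i : ℝ) = ∑ i, (a i : ℝ) * x i :=
      Finset.sum_congr rfl fun i _ => mul_comm _ _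
    rw [e]
    linarith
  have h1 : lowerFace A c x = lifted A c := by
    ext p
    refine ⟨fun hp => hp.1, fun hp => ⟨hp, fun q hq => ?_⟩⟩
    rw [key p hp, key q hq]
  rw [h1, newton, lifted]
  have h2 : toR '' (A : Set (Fin n → ℕ)) =
      (LinearMap.fst ℝ (Fin n → ℝ) ℝ) '' ((fun a => (toR a, -c a)) '' (A : Set (Fin n → ℕ))) := by
    rw [Set.image_image]
    rfl
  rw [h2, ← LinearMap.image_convexHull]
  rfl

/-- The difference of two products of units. -/
def Good (f : (Fin n → ℝ) → ℝ) : Prop :=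
  ∃ g h : (Fin n → ℝ) → ℝ, IsProductOfUnits g ∧ IsProductOfUnits h ∧ ∀ x, f x + g x = h x

theorem zero_unit : IsTropicalUnit (0 : (Fin n → ℝ) → ℝ) := by
  have : (0 : (Fin n → ℝ) → ℝ) = trop {0} (Finset.singleton_nonempty _) 0 := by
    ext x
    rw [trop_singleton]
    simp
  rw [this]
  exact isUnit_of_flat _ _ _ 0 0 (by simp)

theorem prod_of_unit {f : (Fin n → ℝ) → ℝ} (hf : IsTropicalUnit f) : IsProductOfUnits f :=
  ⟨0, fun _ => f, fun _ => hf, fun x => by simp⟩

theorem Good.of_unit {f : (Fin n → ℝ) → ℝ} (hf : IsTropicalUnit f) : Good f :=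
  ⟨0, f, prod_of_unit zero_unit, prod_of_unit hf, fun x => by simp⟩

theorem Good.add {f f' : (Fin n → ℝ) → ℝ} (hf : Good f) (hf' : Good f') : Good (f + f') := by
  obtain ⟨g, h, hg, hh, e⟩ := hf
  obtain ⟨g', h', hg', hh', e'⟩ := hf'
  refine ⟨g + g', h + h', hg.add hg', hh.add hh', fun x => ?_⟩
  simp only [Pi.add_apply]
  linarith [e x, e' x]

theorem Good.neg {f : (Fin n → ℝ) → ℝ} (hf : Good f) : Good (-f) := by
  obtain ⟨g, h, hg, hh, e⟩ := hf
  refine ⟨h, g, hh, hg, fun x => ?_⟩
  simp only [Pi.neg_apply]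
  linarith [e x]

theorem Good.sum {ι : Type*} (s : Finset ι) (f : ι → (Fin n → ℝ) → ℝ)
    (hf : ∀ i ∈ s, Good (f i)) : Good (∑ i ∈ s, f i) := by
  classical
  induction s using Finset.induction_on with
  | empty => simpa using Good.of_unit (zero_unit (n := n))
  | insert a s ha ih =>
    rw [Finset.sum_insert ha]
    exact (hf a (by simp)).add (ih fun i hi => hf i (by simp [hi]))

/-- The inclusion-exclusion identity for maxima: if `j ∈ Z` is dominated by some element of
`A \ Z`, the alternating sum of the maxima over `A \ T`, `T ⊆ Z`, vanishes. -/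
theorem alt_sum {ι : Type*} [DecidableEq ι] (A Z : Finset ι) (ℓ : ι → ℝ)
    (hne : ∀ T ∈ Z.powerset, (A \ T).Nonempty) {j p : ι} (hj : j ∈ Z) (hjA : j ∈ A)
    (hp : p ∈ A) (hpZ : p ∉ Z) (hle : ℓ j ≤ ℓ p) :
    ∑ T ∈ Z.powerset.attach, (-1 : ℝ) ^ (T.1.card) * (A \ T.1).sup' (hne _ T.2) ℓ = 0 := by
  classical
  refine Finset.sum_involution (fun T _ => ⟨if j ∈ T.1 then T.1.erase j else insert j T.1, ?_⟩)
    ?_ ?_ ?_ ?_
  · have := T.2
    rw [Finset.mem_powerset] at this ⊢
    split_ifs
    · exact (Finset.erase_subset _ _).trans this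
    · exact Finset.insert_subset hj this
  · -- cancellation
    have main : ∀ T (hT : T ∈ Z.powerset) (hT' : insert j T ∈ Z.powerset), j ∉ T →
        (A \ T).sup' (hne _ hT) ℓ = (A \ insert j T).sup' (hne _ hT') ℓ := by
      intro T hT hT' hjT
      apply le_antisymm
      · refine Finset.sup'_le _ _ fun b hb => ?_
        rw [Finset.mem_sdiff] at hb
        by_cases hbj : b = j
        · subst hbj
          refine hle.trans (Finset.le_sup' ℓ ?_)
          rw [Finset.mem_sdiff]
          refine ⟨hp, fun h => hpZ ?_⟩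
          exact Finset.mem_powerset.1 hT' h
        · refine Finset.le_sup' ℓ ?_
          rw [Finset.mem_sdiff, Finset.mem_insert]
          exact ⟨hb.1, fun h => h.elim hbj hb.2⟩
      · refine Finset.sup'_mono ℓ ?_ _
        exact Finset.sdiff_subset_sdiff (Finset.Subset.refl _) (Finset.subset_insert _ _)
    rintro ⟨T, hT⟩ -
    by_cases hjT : j ∈ T
    · have hT' : T.erase j ∈ Z.powerset :=
        Finset.mem_powerset.2 ((Finset.erase_subset _ _).trans (Finset.mem_powerset.1 hT))
      have h1 := main (T.erase j) hT' (by rw [Finset.insert_erase hjT]; exact hT)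
        (Finset.notMem_erase j T)
      simp only [Finset.insert_erase hjT] at h1
      simp only [hjT, if_true]
      rw [h1, ← Finset.card_erase_add_one hjT, pow_succ]
      ring
    · have hT' : insert j T ∈ Z.powerset :=
        Finset.mem_powerset.2 (Finset.insert_subset hj (Finset.mem_powerset.1 hT))
      have h1 := main T hT hT' hjT
      simp only [hjT, if_false]
      rw [h1, Finset.card_insert_of_notMem hjT, pow_succ]
      ring
  · rintro ⟨T, hT⟩ - - h
    have h2 : (if j ∈ T then T.erase j else insert j T) = T := congrArg Subtype.val h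
    split_ifs at h2 with h3
    · have h4 : j ∈ T.erase j := by rw [h2]; exact h3
      exact Finset.notMem_erase j T h4
    · have h4 : j ∈ insert j T := Finset.mem_insert_self j T
      rw [h2] at h4
      exact h3 h4
  · intro T hT
    exact Finset.mem_attach _ _
  · rintro ⟨T, hT⟩ -
    apply Subtype.ext
    by_cases hjT : j ∈ T
    · simp [hjT, Finset.insert_erase]
    · simp [hjT]

/-- The main induction step for a dependence with nonnegative defect. -/
theorem step (A : Finset (Fin n → ℕ)) (hA : A.Nonempty) (c : (Fin n → ℕ) → ℝ)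
    (w : (Fin n → ℕ) → ℝ) (h0 : ∑ a ∈ A, w a = 0)
    (h1 : ∀ i, ∑ a ∈ A, w a * (a i : ℝ) = 0) (hw : ∃ a ∈ A, w a ≠ 0)
    (hD : 0 ≤ ∑ a ∈ A, w a * c a)
    (ih : ∀ (B : Finset (Fin n → ℕ)) (hB : B.Nonempty), B.card < A.card → Good (trop B hB c)) :
    Good (trop A hA c) := by
  classical
  set Z : Finset (Fin n → ℕ) := A.filter (fun a => w a < 0) with hZ
  -- there is a positive and a negative weight
  have hpos : ∃ p ∈ A, 0 < w p := by
    by_contra hcon
    push Not at hcon
    obtain ⟨a, ha, hne⟩ := hw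
    have := (Finset.sum_eq_zero_iff_of_nonpos hcon).1 h0 a ha
    exact hne this
  have hneg : ∃ p ∈ A, w p < 0 := by
    by_contra hcon
    push Not at hcon
    obtain ⟨a, ha, hne⟩ := hw
    have := (Finset.sum_eq_zero_iff_of_nonneg hcon).1 h0 a ha
    exact hne this
  have hne : ∀ T ∈ Z.powerset, (A \ T).Nonempty := by
    intro T hT
    obtain ⟨p, hp, hp0⟩ := hpos
    refine ⟨p, Finset.mem_sdiff.2 ⟨hp, fun h => ?_⟩⟩
    have := Finset.mem_powerset.1 hT h
    rw [hZ, Finset.mem_filter] at this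
    linarith [this.2]
  have key : ∀ x : Fin n → ℝ, ∑ T ∈ Z.powerset.attach,
      (-1 : ℝ) ^ (T.1.card) * trop (A \ T.1) (hne _ T.2) c x = 0 := by
    intro x
    set ℓ : (Fin n → ℕ) → ℝ := fun a => c a + ∑ i, (a i : ℝ) * x i with hℓ
    have hsum : 0 ≤ ∑ a ∈ A, w a * ℓ a := by
      have : ∑ a ∈ A, w a * ℓ a = ∑ a ∈ A, w a * c a + ∑ i, (∑ a ∈ A, w a * (a i : ℝ)) * x i := by
        simp only [hℓ, mul_add, Finset.sum_add_distrib]
        congr 1
        simp only [Finset.mul_sum, Finset.sum_mul]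
        rw [Finset.sum_comm]
        exact Finset.sum_congr rfl fun i _ => Finset.sum_congr rfl fun a _ => by ring
      rw [this]
      simp [h1, hD]
    -- some negative element is dominated by some positive element
    have hdom : ∃ j ∈ A, ∃ p ∈ A, w j < 0 ∧ 0 < w p ∧ ℓ j ≤ ℓ p := by
      by_contra hcon
      push Not at hcon
      -- choose the best positive element
      obtain ⟨p, hpmem, hpmax⟩ := Finset.exists_max_image (A.filter (fun a => 0 < w a)) ℓ
        (by obtain ⟨p, hp, hp0⟩ := hpos; exact ⟨p, Finset.mem_filter.2 ⟨hp, hp0⟩⟩)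
      rw [Finset.mem_filter] at hpmem
      have hlt : ∑ a ∈ A, w a * ℓ a < ∑ a ∈ A, w a * ℓ p := by
        obtain ⟨j, hj, hj0⟩ := hneg
        refine Finset.sum_lt_sum (fun a ha => ?_) ⟨j, hj, ?_⟩
        · rcases lt_trichotomy (w a) 0 with h | h | h
          · have := hcon a ha p hpmem.1 h hpmem.2
            nlinarith
          · simp [h]
          · have := hpmax a (Finset.mem_filter.2 ⟨ha, h⟩)
            nlinarith
        · have := hcon j hj p hpmem.1 hj0 hpmem.2
          nlinarith
      rw [← Finset.sum_mul, h0, zero_mul] at hlt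
      linarith
    obtain ⟨j, hj, p, hp, hj0, hp0, hle⟩ := hdom
    refine alt_sum A Z ℓ hne (j := j) (p := p) ?_ hj hp ?_ hle
    · rw [hZ, Finset.mem_filter]; exact ⟨hj, hj0⟩
    · rw [hZ, Finset.mem_filter]
      exact fun h => absurd h.2 (by linarith)
  -- solve for the term T = ∅
  have hempty : (∅ : Finset (Fin n → ℕ)) ∈ Z.powerset := Finset.empty_mem_powerset _
  have hG : Good (∑ T ∈ Z.powerset.attach.erase ⟨∅, hempty⟩,
      (fun x => (-1 : ℝ) ^ (T.1.card) * trop (A \ T.1) (hne _ T.2) c x)) := by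
    refine Good.sum _ _ fun T hT => ?_
    have hTne : T.1.Nonempty := by
      rw [Finset.nonempty_iff_ne_empty]
      intro h
      exact (Finset.mem_erase.1 hT).1 (Subtype.ext h)
    have hTA : T.1 ⊆ A := (Finset.mem_powerset.1 T.2).trans (Finset.filter_subset _ _)
    have hcard : (A \ T.1).card < A.card := by
      rw [Finset.card_sdiff_of_subset hTA]
      have := hTne.card_pos
      have := Finset.card_le_card hTA
      omega
    have hg := ih (A \ T.1) (hne _ T.2) hcard
    rcases neg_one_pow_eq_or ℝ T.1.card with h | h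
    · have e : (fun x => (-1 : ℝ) ^ (T.1.card) * trop (A \ T.1) (hne _ T.2) c x) =
          trop (A \ T.1) (hne _ T.2) c := by
        ext x; rw [h, one_mul]
      rw [e]; exact hg
    · have e : (fun x => (-1 : ℝ) ^ (T.1.card) * trop (A \ T.1) (hne _ T.2) c x) =
          -trop (A \ T.1) (hne _ T.2) c := by
        ext x; rw [h, Pi.neg_apply]; ring
      rw [e]; exact hg.neg
  have hfin : trop A hA c = -(∑ T ∈ Z.powerset.attach.erase ⟨∅, hempty⟩,
      (fun x => (-1 : ℝ) ^ (T.1.card) * trop (A \ T.1) (hne _ T.2) c x)) := by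
    ext x
    have := key x
    rw [← Finset.add_sum_erase _ _ (Finset.mem_attach _ ⟨∅, hempty⟩)] at this
    simp only [Finset.card_empty, pow_zero, one_mul, Finset.sdiff_empty] at this
    rw [Pi.neg_apply, Finset.sum_apply]
    linarith
  rw [hfin]
  exact hG.neg

theorem good_trop (c : (Fin n → ℕ) → ℝ) : ∀ (N : ℕ) (A : Finset (Fin n → ℕ)) (hA : A.Nonempty),
    A.card = N → Good (trop A hA c) := by
  intro N
  induction N using Nat.strong_induction_on with
  | _ N ih =>
    intro A hA hcard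
    have ih' : ∀ (B : Finset (Fin n → ℕ)) (hB : B.Nonempty), B.card < A.card →
        Good (trop B hB c) := fun B hB h => ih B.card (hcard ▸ h) B hB rfl
    by_cases hli : LinearIndependent ℝ (fun a : A => ((toR a.1, (1 : ℝ)) : (Fin n → ℝ) × ℝ))
    · -- affinely independent exponents
      obtain ⟨φ, hφ⟩ : ∃ φ : ((Fin n → ℝ) × ℝ) →ₗ[ℝ] ℝ,
          ∀ a : A, φ (toR a.1, (1 : ℝ)) = - c a.1 := by
        obtain ⟨φ, hφ⟩ := LinearMap.exists_extend
          ((Finsupp.linearCombination ℝ (fun a : A => - c a.1)) ∘ₗ hli.repr)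
        refine ⟨φ, fun a => ?_⟩
        have hmem : ((toR a.1, (1 : ℝ)) : (Fin n → ℝ) × ℝ) ∈ Submodule.span ℝ
            (Set.range (fun a : A => ((toR a.1, (1 : ℝ)) : (Fin n → ℝ) × ℝ))) :=
          Submodule.subset_span ⟨a, rfl⟩
        have h1 := LinearMap.congr_fun hφ ⟨_, hmem⟩
        simp only [LinearMap.comp_apply, Submodule.subtype_apply] at h1
        rw [h1]
        have h2 := hli.repr_eq_single a ⟨_, hmem⟩ rfl
        rw [h2]
        simp
      refine Good.of_unit (isUnit_of_flat A hA c (fun i => φ (Pi.single i 1, 0)) (- φ (0, 1)) ?_)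
      intro a ha
      have h1 := hφ ⟨a, ha⟩
      have h2 : ((toR a, (1 : ℝ)) : (Fin n → ℝ) × ℝ) =
          ∑ i, (a i : ℝ) • ((Pi.single i 1, 0) : (Fin n → ℝ) × ℝ) + (0, 1) := by
        ext i
        · simp [toR, Prod.fst_sum, Pi.single_apply]
        · simp [Prod.snd_sum]
      rw [h2, map_add, map_sum] at h1
      simp only [map_smul, smul_eq_mul] at h1
      linarith
    · rw [Fintype.not_linearIndependent_iff] at hli
      obtain ⟨g, hg, i0, hi0⟩ := hli
      classical
      set w : (Fin n → ℕ) → ℝ := fun a => if h : a ∈ A then g ⟨a, h⟩ else 0 with hwdef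
      have hwA : ∀ a : A, w a.1 = g a := fun a => by simp [hwdef]
      have h0 : ∑ a ∈ A, w a = 0 := by
        rw [← Finset.sum_coe_sort]
        have := congrArg Prod.snd hg
        simpa [Prod.snd_sum, hwA] using this
      have h1 : ∀ i, ∑ a ∈ A, w a * (a i : ℝ) = 0 := by
        intro i
        rw [← Finset.sum_coe_sort A (fun a => w a * (a i : ℝ))]
        have := congrFun (congrArg Prod.fst hg) i
        simpa [Prod.fst_sum, hwA, toR] using this
      have hw : ∃ a ∈ A, w a ≠ 0 := ⟨i0.1, i0.2, by rw [hwA]; exact hi0⟩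
      rcases le_total 0 (∑ a ∈ A, w a * c a) with hD | hD
      · exact step A hA c w h0 h1 hw hD ih'
      · refine step A hA c (fun a => - w a) ?_ ?_ ?_ ?_ ih'
        · simp [Finset.sum_neg_distrib, h0]
        · intro i
          simp [neg_mul, Finset.sum_neg_distrib, h1]
        · obtain ⟨a, ha, h⟩ := hw
          exact ⟨a, ha, by simpa using h⟩
        · simp only [neg_mul, Finset.sum_neg_distrib]
          linarith

/-- Every tropical polynomial `f` in `n` variables is rationally factorizable: there are finite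
tropical products `g`, `h` of units with `f ⊙ g = h`. -/
theorem result (n : ℕ) (f : (Fin n → ℝ) → ℝ) (hf : IsTropicalPolynomial f) :
    ∃ g h : (Fin n → ℝ) → ℝ, IsProductOfUnits g ∧ IsProductOfUnits h ∧
      ∀ x, f x + g x = h x := by
  obtain ⟨A, hA, c, rfl⟩ := hf
  exact good_trop c A.card A hA rfl

end Pool.Agent.Results.MP_b8ee47_co.RationalFactorization
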